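import Pool.Agent.V1174.QR.Alg

/-!
# The radius of convergence of `q`-deformed real numbers

`R(x) ≥ (3 - √5) / 2` for every real number `x`.

Idea. If `|q| < (3 - √5) / 2` and `s = √|q|`, then `s + s² < 1` and every partial quotient map
`v ↦ [c]_q - q^(c-1) / v`, `c ≥ 2`, maps the disc `|v - 1| ≤ s` into itself: indeed
`[2]_q - q / v = 1 + q (v - 1) / v` with `|(v - 1) / v| ≤ s / (1 - s) < 1 / s`, and the map for
`c + 1` is `w ↦ 1 + q w` after the map for `c`. So all truncations are holomorphic in the disc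
`|q| < (3 - √5) / 2` and bounded there by `2`, and Cauchy's estimates pass to the limit series.
-/

set_option autoImplicit false

namespace Pool.Agent.Results.MP_b13893_an.RadiusBound

open Filter Topology Pool.Agent.V1174.QR

noncomputable section

/-- The truncations `[[c_1, …, c_{N+1}]]` (real numbers) of the negative continued fraction
`c_1 - 1 / (c_2 - 1 / (c_3 - ⋯))`; the digits are `c_{j+1} = c j`. -/
def cf : ℕ → (ℕ → ℕ) → ℝ
  | 0, c => c 0
  | N + 1, c => c 0 - 1 / cf N (fun n => c (n + 1))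

/-- `x = [[c_1, c_2, …]]` with integers `c_j ≥ 2`. -/
def IsNegCF (c : ℕ → ℕ) (x : ℝ) : Prop :=
  (∀ j, 2 ≤ c j) ∧ Tendsto (fun N => cf N c) atTop (𝓝 x)

/-- The variable `q` of the field `ℚ((q))`, in which rational functions of `q` are expanded at
`q = 0`. -/
def qv : LaurentSeries ℚ := HahnSeries.single 1 1

/-- `[n]_q = (1 - q^n) / (1 - q)` -/
def qInt (n : ℕ) : LaurentSeries ℚ := (1 - qv ^ n) / (1 - qv)

/-- The `q`-deformed truncations `[[c_1, …, c_{N+1}]]_q`, rational functions of `q`, expanded at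
`q = 0`. -/
def qcf : ℕ → (ℕ → ℕ) → LaurentSeries ℚ
  | 0, c => qInt (c 0)
  | N + 1, c => qInt (c 0) - qv ^ (c 0 - 1) / qcf N (fun n => c (n + 1))

/-- `Q x` is the `q`-deformed real number `[x]_q` for every real `x`: for `x ≥ 1` it is the `q`-adic
limit (every coefficient is eventually constant) of the truncations of the continued fraction of
`x`, and `[x - 1]_q = q⁻¹ ([x]_q - 1)` for every real `x`. -/
def IsQDeformation (Q : ℝ → LaurentSeries ℤ) : Prop :=
  (∀ (x : ℝ) (c : ℕ → ℕ), 1 ≤ x → IsNegCF c x → ∀ n : ℤ, ∀ᶠ N in atTop,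
    (qcf N c).coeff n = (((Q x).coeff n : ℤ) : ℚ)) ∧
  ∀ x : ℝ, Q (x - 1) = HahnSeries.single (-1) 1 * (Q x - 1)

/-- The radius of convergence of (the regular part of) a Laurent series with finitely many negative
powers. -/
def radius (f : LaurentSeries ℤ) : ENNReal :=
  (FormalMultilinearSeries.ofScalars ℂ (fun n : ℕ => ((f.coeff n : ℤ) : ℂ))).radius

/-! ### Negative continued fractions -/

lemma one_le_cf (N : ℕ) : ∀ c : ℕ → ℕ, (∀ j, 2 ≤ c j) → 1 ≤ cf N c := by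
  induction N with
  | zero =>
    intro c hc
    have : (2 : ℝ) ≤ (c 0 : ℝ) := by exact_mod_cast hc 0
    show (1 : ℝ) ≤ (c 0 : ℝ)
    linarith
  | succ N ih =>
    intro c hc
    have h1 := ih (fun n => c (n + 1)) (fun j => hc (j + 1))
    have h2 : (2 : ℝ) ≤ (c 0 : ℝ) := by exact_mod_cast hc 0
    have h3 : 1 / cf N (fun n => c (n + 1)) ≤ 1 := by
      rw [div_le_one (by linarith)]
      exact h1
    show (1 : ℝ) ≤ (c 0 : ℝ) - 1 / cf N (fun n => c (n + 1))
    linarith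

lemma cf_le (N : ℕ) (c : ℕ → ℕ) (hc : ∀ j, 2 ≤ c j) : cf N c ≤ c 0 := by
  cases N with
  | zero => exact le_rfl
  | succ N =>
    have h1 := one_le_cf N (fun n => c (n + 1)) (fun j => hc (j + 1))
    have h3 : 0 ≤ 1 / cf N (fun n => c (n + 1)) := by positivity
    show (c 0 : ℝ) - 1 / cf N (fun n => c (n + 1)) ≤ c 0
    linarith

/-- first digit and tail of an expansion -/
lemma IsNegCF.tail {c : ℕ → ℕ} {x : ℝ} (h : IsNegCF c x) :
    x < c 0 ∧ (c 0 : ℝ) ≤ x + 1 ∧ IsNegCF (fun n => c (n + 1)) (1 / (c 0 - x)) := by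
  obtain ⟨hc, hx⟩ := h
  have hc' : ∀ j, 2 ≤ c (j + 1) := fun j => hc (j + 1)
  have h1 : Tendsto (fun N => (c 0 : ℝ) - cf (N + 1) c) atTop (𝓝 (c 0 - x)) :=
    tendsto_const_nhds.sub (hx.comp (tendsto_add_atTop_nat 1))
  have h2 : ∀ N, (c 0 : ℝ) - cf (N + 1) c = 1 / cf N (fun n => c (n + 1)) := by
    intro N
    show (c 0 : ℝ) - (c 0 - 1 / cf N (fun n => c (n + 1))) = _
    ring
  simp only [h2] at h1
  have hc1 : (0 : ℝ) < (c 1 : ℝ) := by
    have : (2 : ℝ) ≤ (c 1 : ℝ) := by exact_mod_cast hc 1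
    linarith
  have h3 : 1 / (c 1 : ℝ) ≤ c 0 - x := by
    apply ge_of_tendsto' h1
    intro N
    have a := one_le_cf N _ hc'
    exact one_div_le_one_div_of_le (by linarith) (cf_le N _ hc')
  have h4 : (c 0 : ℝ) - x ≤ 1 := by
    apply le_of_tendsto' h1
    intro N
    have a := one_le_cf N _ hc'
    rw [div_le_one (by linarith)]
    exact a
  have h5 : 0 < 1 / (c 1 : ℝ) := by positivity
  have h6 : 0 < (c 0 : ℝ) - x := by linarith
  refine ⟨by linarith, by linarith, hc', ?_⟩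
  have h7 := h1.inv₀ h6.ne'
  simpa using h7

lemma unique_aux (n : ℕ) : ∀ (c c' : ℕ → ℕ) (x : ℝ), IsNegCF c x → IsNegCF c' x → c n = c' n := by
  have h0 : ∀ (c c' : ℕ → ℕ) (x : ℝ), IsNegCF c x → IsNegCF c' x → c 0 = c' 0 := by
    intro c c' x h h'
    obtain ⟨a1, a2, _⟩ := h.tail
    obtain ⟨b1, b2, _⟩ := h'.tail
    have h1 : (c 0 : ℝ) < (c' 0 : ℝ) + 1 := by linarith
    have h2 : (c' 0 : ℝ) < (c 0 : ℝ) + 1 := by linarith
    have h3 : c 0 < c' 0 + 1 := by exact_mod_cast h1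
    have h4 : c' 0 < c 0 + 1 := by exact_mod_cast h2
    omega
  induction n with
  | zero => exact h0
  | succ n ih =>
    intro c c' x h h'
    have h1 := h0 c c' x h h'
    obtain ⟨_, _, a3⟩ := h.tail
    obtain ⟨_, _, b3⟩ := h'.tail
    rw [← h1] at b3
    exact ih _ _ _ a3 b3

lemma IsNegCF.unique {c c' : ℕ → ℕ} {x : ℝ} (h : IsNegCF c x) (h' : IsNegCF c' x) : c = c' :=
  funext fun n => unique_aux n c c' x h h'

/-- the tails of the expansion -/
def tl (x : ℝ) : ℕ → ℝ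
  | 0 => x
  | n + 1 => 1 / (⌊tl x n⌋₊ + 1 - tl x n)

/-- the digits -/
def dg (x : ℝ) (n : ℕ) : ℕ := ⌊tl x n⌋₊ + 1

lemma tl_shift (x : ℝ) (n : ℕ) : tl (1 / (⌊x⌋₊ + 1 - x)) n = tl x (n + 1) := by
  induction n with
  | zero => rfl
  | succ n ih =>
    rw [tl, ih]
    rfl

lemma dg_shift (x : ℝ) : (fun n => dg x (n + 1)) = dg (1 / (⌊x⌋₊ + 1 - x)) := by
  funext n
  unfold dg
  rw [tl_shift]

lemma next_ge (x : ℝ) (hx : 1 ≤ x) : 1 ≤ 1 / (⌊x⌋₊ + 1 - x) := by
  have h1 := Nat.lt_floor_add_one x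
  have h2 := Nat.floor_le (by linarith : (0 : ℝ) ≤ x)
  rw [le_div_iff₀ (by linarith)]
  linarith

lemma one_le_tl (x : ℝ) (hx : 1 ≤ x) (n : ℕ) : 1 ≤ tl x n := by
  induction n with
  | zero => exact hx
  | succ n ih => exact next_ge _ ih

lemma two_le_dg (x : ℝ) (hx : 1 ≤ x) (n : ℕ) : 2 ≤ dg x n := by
  have h1 := one_le_tl x hx n
  have h2 : 1 ≤ ⌊tl x n⌋₊ := by
    rw [Nat.one_le_floor_iff]
    exact h1
  unfold dg
  omega

lemma cf_error (N : ℕ) : ∀ x : ℝ, 1 ≤ x →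
    0 ≤ cf N (dg x) - x ∧ cf N (dg x) - x ≤ 1 / ((N : ℝ) + 1) := by
  induction N with
  | zero =>
    intro x hx
    have h1 := Nat.lt_floor_add_one x
    have h2 := Nat.floor_le (by linarith : (0 : ℝ) ≤ x)
    have h3 : cf 0 (dg x) = (⌊x⌋₊ : ℝ) + 1 := by
      show ((⌊x⌋₊ + 1 : ℕ) : ℝ) = _
      push_cast
      ring
    rw [h3]
    constructor
    · linarith
    · norm_num
      linarith
  | succ N ih =>
    intro x hx
    have h1 := Nat.lt_floor_add_one x
    have hy1 := next_ge x hx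
    set y := 1 / (⌊x⌋₊ + 1 - x) with hy
    obtain ⟨a1, a2⟩ := ih y hy1
    have h3 : cf (N + 1) (dg x) = (⌊x⌋₊ : ℝ) + 1 - 1 / cf N (dg y) := by
      show ((⌊x⌋₊ + 1 : ℕ) : ℝ) - 1 / cf N (fun n => dg x (n + 1)) = _
      rw [dg_shift]
      push_cast
      ring
    have hxy : x = ⌊x⌋₊ + 1 - 1 / y := by
      rw [hy, one_div_one_div]
      ring
    set e := cf N (dg y) - y with he
    have hcf : cf N (dg y) = y + e := by rw [he]; ring
    have h4 : cf (N + 1) (dg x) - x = e / (y * (y + e)) := by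
      rw [h3, hcf]
      nth_rewrite 2 [hxy]
      have : y ≠ 0 := by linarith
      have : y + e ≠ 0 := by linarith
      field_simp
      ring
    rw [h4]
    have hN : (0 : ℝ) ≤ (N : ℝ) := Nat.cast_nonneg N
    constructor
    · positivity
    · rw [div_le_div_iff₀ (by positivity) (by positivity)]
      rw [le_div_iff₀ (by positivity)] at a2
      push_cast
      have h5 : e * ((N : ℝ) + 1 + 1) ≤ 1 + e := by nlinarith
      have h6 : 1 + e ≤ y * (y + e) := by nlinarith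
      linarith

lemma isNegCF_dg (x : ℝ) (hx : 1 ≤ x) : IsNegCF (dg x) x := by
  refine ⟨two_le_dg x hx, ?_⟩
  have h1 : Tendsto (fun N : ℕ => 1 / ((N : ℝ) + 1)) atTop (𝓝 0) :=
    tendsto_one_div_add_atTop_nhds_zero_nat
  have h2 : Tendsto (fun N => cf N (dg x) - x) atTop (𝓝 0) :=
    squeeze_zero (fun N => (cf_error N x hx).1) (fun N => (cf_error N x hx).2) h1
  have h3 := h2.add_const x
  simpa using h3

/-! ### Laurent series -/

/-- the embedding of `ℤ[[q]]` in `ℚ((q))` -/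
def emb : PowerSeries ℤ →+* LaurentSeries ℚ :=
  (HahnSeries.ofPowerSeries ℤ ℚ).comp (PowerSeries.map (Int.castRingHom ℚ))

lemma emb_X : emb PowerSeries.X = qv := by
  unfold emb qv
  rw [RingHom.comp_apply, PowerSeries.map_X, HahnSeries.ofPowerSeries_X]

lemma emb_coeff_nat (P : PowerSeries ℤ) (n : ℕ) :
    (emb P).coeff (n : ℤ) = ((PowerSeries.coeff n P : ℤ) : ℚ) := by
  unfold emb
  rw [RingHom.comp_apply, HahnSeries.ofPowerSeries_apply_coeff, PowerSeries.coeff_map]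
  rfl

lemma ofPS_coeff_neg {R : Type} [CommRing R] (P : PowerSeries R) (n : ℤ) (hn : n < 0) :
    (HahnSeries.ofPowerSeries ℤ R P).coeff n = 0 := by
  rw [HahnSeries.ofPowerSeries_apply]
  apply HahnSeries.embDomain_of_notMem_range
  rintro ⟨m, hm⟩
  have : (m : ℤ) = n := hm
  omega

lemma emb_injective : Function.Injective emb := by
  intro P P' h
  ext n
  have := congrArg (fun f : LaurentSeries ℚ => f.coeff (n : ℤ)) h
  simp only [emb_coeff_nat] at this
  exact_mod_cast this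

lemma one_sub_qv_ne : (1 - qv : LaurentSeries ℚ) ≠ 0 := by
  intro h
  have h1 : emb (1 - PowerSeries.X) = emb 0 := by
    rw [map_sub, emb_X, map_one, map_zero, h]
  have h2 := emb_injective h1
  have h3 := congrArg PowerSeries.constantCoeff h2
  simp at h3

lemma emb_Gz (n : ℕ) : emb (Gz n) = qInt n := by
  unfold qInt
  rw [eq_div_iff one_sub_qv_ne, ← emb_X, ← map_one emb, ← map_pow, ← map_sub, ← map_sub, ← map_mul]
  congr 1
  unfold Gz
  exact geom_sum_mul_neg _ _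

lemma emb_Pz (N : ℕ) : ∀ c : ℕ → ℕ, (∀ j, 2 ≤ c j) → emb (Pz N c) = qcf N c := by
  induction N with
  | zero => intro c _; exact emb_Gz _
  | succ N ih =>
    intro c hc
    have hc' : ∀ j, 2 ≤ c (j + 1) := fun j => hc (j + 1)
    have h1 := ih _ hc'
    have h2 := congrArg emb (mul_inv_Pz N _ hc')
    rw [map_mul, map_one, h1] at h2
    have h3 : qcf N (fun n => c (n + 1)) ≠ 0 := by
      intro h
      rw [h, zero_mul] at h2
      exact zero_ne_one h2
    show emb (Gz (c 0) - PowerSeries.X ^ (c 0 - 1) * _) =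
      qInt (c 0) - qv ^ (c 0 - 1) / qcf N (fun n => c (n + 1))
    rw [map_sub, emb_Gz, map_mul, map_pow, emb_X]
    congr 1
    rw [eq_div_iff h3, mul_assoc, mul_comm (emb _), h2, mul_one]

lemma coeff_eventually (c : ℕ → ℕ) (hc : ∀ j, 2 ≤ c j) (n : ℤ) :
    ∀ᶠ N in atTop, (qcf N c).coeff n =
      (((HahnSeries.ofPowerSeries ℤ ℤ (Lz c)).coeff n : ℤ) : ℚ) := by
  rcases lt_or_ge n 0 with hn | hn
  · apply Eventually.of_forall
    intro N
    rw [← emb_Pz N c hc, ofPS_coeff_neg _ n hn]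
    unfold emb
    rw [RingHom.comp_apply, ofPS_coeff_neg _ n hn]
    simp
  · obtain ⟨m, rfl⟩ := Int.eq_ofNat_of_zero_le hn
    filter_upwards [eventually_ge_atTop m] with N hN
    rw [← emb_Pz N c hc, emb_coeff_nat, HahnSeries.ofPowerSeries_apply_coeff, coeff_Lz c hc m N hN]

/-! ### The `q`-deformed reals -/

/-- `[x]_q` for `x ≥ 1` -/
def Q1 (x : ℝ) : LaurentSeries ℤ := HahnSeries.ofPowerSeries ℤ ℤ (Lz (dg x))

/-- `[x]_q` -/
def Qr (x : ℝ) : LaurentSeries ℤ :=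
  HahnSeries.single (-(⌈1 - x⌉₊ : ℤ)) 1 *
    (Q1 (x + ⌈1 - x⌉₊) - HahnSeries.ofPowerSeries ℤ ℤ (Gz ⌈1 - x⌉₊))

lemma Qr_of_one_le (x : ℝ) (hx : 1 ≤ x) : Qr x = Q1 x := by
  have h1 : ⌈1 - x⌉₊ = 0 := by
    rw [Nat.ceil_eq_zero]
    linarith
  unfold Qr
  rw [h1]
  simp [Gz]

lemma dg_sub_one (x : ℝ) (hx : 2 ≤ x) :
    dg x 0 = dg (x - 1) 0 + 1 ∧ (fun n => dg x (n + 1)) = fun n => dg (x - 1) (n + 1) := by
  have h1 : ⌊x⌋₊ = ⌊x - 1⌋₊ + 1 := by
    have h2 : ⌊x - 1⌋₊ = ⌊x⌋₊ - 1 := Nat.floor_sub_one x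
    have h3 : 1 ≤ ⌊x⌋₊ := by
      rw [Nat.one_le_floor_iff]
      linarith
    omega
  constructor
  · show ⌊x⌋₊ + 1 = ⌊x - 1⌋₊ + 1 + 1
    rw [h1]
  · rw [dg_shift, dg_shift]
    congr 2
    rw [h1]
    push_cast
    ring

lemma Pz_sub_one (x : ℝ) (hx : 2 ≤ x) (N : ℕ) :
    Pz N (dg x) = 1 + PowerSeries.X * Pz N (dg (x - 1)) := by
  obtain ⟨h1, h2⟩ := dg_sub_one x hx
  have h3 := two_le_dg (x - 1) (by linarith) 0
  cases N with
  | zero =>
    show Gz (dg x 0) = 1 + PowerSeries.X * Gz (dg (x - 1) 0)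
    rw [h1, Gz_succ]
  | succ N =>
    show Gz (dg x 0) - PowerSeries.X ^ (dg x 0 - 1) *
        PowerSeries.invOfUnit (Pz N (fun n => dg x (n + 1))) 1 =
      1 + PowerSeries.X * (Gz (dg (x - 1) 0) - PowerSeries.X ^ (dg (x - 1) 0 - 1) *
        PowerSeries.invOfUnit (Pz N (fun n => dg (x - 1) (n + 1))) 1)
    rw [h1, Gz_succ, h2]
    obtain ⟨m, hm⟩ : ∃ m, dg (x - 1) 0 = m + 1 := ⟨dg (x - 1) 0 - 1, by omega⟩
    rw [hm]
    simp only [Nat.add_sub_cancel]
    rw [pow_succ]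
    ring

lemma Lz_sub_one (x : ℝ) (hx : 2 ≤ x) : Lz (dg x) = 1 + PowerSeries.X * Lz (dg (x - 1)) := by
  ext m
  rcases m with _ | m
  · rw [coeff_Lz (dg x) (two_le_dg x (by linarith)) 0 0 le_rfl, Pz_sub_one x hx]
    simp
  · rw [coeff_Lz (dg x) (two_le_dg x (by linarith)) (m + 1) (m + 1) le_rfl, Pz_sub_one x hx,
      map_add, map_add, PowerSeries.coeff_succ_X_mul, PowerSeries.coeff_succ_X_mul,
      coeff_Lz (dg (x - 1)) (two_le_dg (x - 1) (by linarith)) m (m + 1) (by omega)]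

lemma single_neg_mul (a b : ℤ) :
    (HahnSeries.single a (1 : ℤ) : LaurentSeries ℤ) * HahnSeries.single b 1 =
      HahnSeries.single (a + b) 1 := by
  rw [HahnSeries.single_mul_single, one_mul]

lemma Qr_shift (x : ℝ) : Qr (x - 1) = HahnSeries.single (-1) 1 * (Qr x - 1) := by
  rcases le_or_gt 2 x with hx | hx
  · rw [Qr_of_one_le x (by linarith), Qr_of_one_le (x - 1) (by linarith)]
    unfold Q1
    rw [Lz_sub_one x hx, map_add, map_mul, map_one (HahnSeries.ofPowerSeries ℤ ℤ), add_sub_cancel_left,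
      HahnSeries.ofPowerSeries_X,
      ← mul_assoc, single_neg_mul]
    simp
  · have h1 : ⌈1 - (x - 1)⌉₊ = ⌈1 - x⌉₊ + 1 := by
      have h2 : (1 : ℝ) - (x - 1) = (1 - x) + 1 := by ring
      rw [h2]
      rcases le_or_gt 0 (1 - x) with h3 | h3
      · exact Nat.ceil_add_one h3
      · have h4 : ⌈1 - x⌉₊ = 0 := by
          rw [Nat.ceil_eq_zero]
          exact h3.le
        rw [h4, Nat.ceil_eq_iff (by norm_num)]
        constructor
        · norm_num
          linarith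
        · norm_num
          linarith
    unfold Qr
    rw [h1]
    set n := ⌈1 - x⌉₊ with hn
    have h5 : x - 1 + ((n + 1 : ℕ) : ℝ) = x + n := by
      push_cast
      ring
    rw [h5]
    have h6 : HahnSeries.ofPowerSeries ℤ ℤ (Gz (n + 1)) =
        HahnSeries.ofPowerSeries ℤ ℤ (Gz n) + HahnSeries.single (n : ℤ) 1 := by
      have : Gz (n + 1) = Gz n + PowerSeries.X ^ n := by
        unfold Gz
        rw [Finset.sum_range_succ]
      rw [this, map_add, HahnSeries.ofPowerSeries_X_pow]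
    rw [h6]
    have h7 : (HahnSeries.single (-((n + 1 : ℕ) : ℤ)) (1 : ℤ) : LaurentSeries ℤ) =
        HahnSeries.single (-1) 1 * HahnSeries.single (-(n : ℤ)) 1 := by
      rw [single_neg_mul]
      congr 1
      push_cast
      ring_nf
    have h8 : (HahnSeries.single (-(n : ℤ)) (1 : ℤ) : LaurentSeries ℤ) *
        HahnSeries.single (n : ℤ) 1 = 1 := by
      rw [single_neg_mul, neg_add_cancel]
      rfl
    rw [h7, mul_assoc]
    congr 1
    rw [← sub_sub, mul_sub _ _ (HahnSeries.single (n : ℤ) 1), h8]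

lemma isQDeformation_Qr : IsQDeformation Qr := by
  refine ⟨?_, Qr_shift⟩
  intro x c hx hc n
  have h1 : c = dg x := hc.unique (isNegCF_dg x hx)
  rw [h1, Qr_of_one_le x hx]
  exact coeff_eventually (dg x) (two_le_dg x hx) n

lemma IsQDeformation.unique {Q Q' : ℝ → LaurentSeries ℤ} (h : IsQDeformation Q)
    (h' : IsQDeformation Q') : Q = Q' := by
  have h1 : ∀ x : ℝ, 1 ≤ x → Q x = Q' x := by
    intro x hx
    ext n
    have a := h.1 x (dg x) hx (isNegCF_dg x hx) n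
    have b := h'.1 x (dg x) hx (isNegCF_dg x hx) n
    obtain ⟨N, hN1, hN2⟩ := (a.and b).exists
    rw [hN1] at hN2
    exact_mod_cast hN2
  have h2 : ∀ (n : ℕ) (x : ℝ), 1 ≤ x + n → Q x = Q' x := by
    intro n
    induction n with
    | zero => intro x hx; exact h1 x (by simpa using hx)
    | succ n ih =>
      intro x hx
      have h3 := ih (x + 1) (by push_cast at hx; linarith)
      have h4 := h.2 (x + 1)
      have h5 := h'.2 (x + 1)
      rw [add_sub_cancel_right] at h4 h5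
      rw [h4, h5, h3]
  funext x
  obtain ⟨n, hn⟩ := exists_nat_ge (1 - x)
  exact h2 n x (by linarith)

lemma coeff_Qr_nat (x : ℝ) (hx : 1 ≤ x) (n : ℕ) :
    (Qr x).coeff (n : ℤ) = PowerSeries.coeff n (Lz (dg x)) := by
  rw [Qr_of_one_le x hx]
  unfold Q1
  rw [HahnSeries.ofPowerSeries_apply_coeff]

lemma bound_Qr (r : ℝ) (h0 : 0 < r) (hr : r < Rs) (m : ℕ) : ∀ x : ℝ, 1 ≤ x + m →
    ∃ C : ℝ, ∀ n : ℕ, |(((Qr x).coeff (n : ℤ) : ℤ) : ℝ)| * r ^ n ≤ C := by
  induction m with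
  | zero =>
    intro x hx
    have hx' : 1 ≤ x := by simpa using hx
    refine ⟨2, fun n => ?_⟩
    rw [coeff_Qr_nat x hx' n]
    have h1 := coeff_Lz_le (dg x) (two_le_dg x hx') r h0 hr n
    rw [le_div_iff₀ (by positivity)] at h1
    exact h1
  | succ m ih =>
    intro x hx
    obtain ⟨C, hC⟩ := ih (x + 1) (by push_cast at hx; linarith)
    have h4 := Qr_shift (x + 1)
    rw [add_sub_cancel_right] at h4
    refine ⟨C / r, fun n => ?_⟩
    have h5 : (Qr x).coeff (n : ℤ) = (Qr (x + 1)).coeff ((n + 1 : ℕ) : ℤ) := by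
      rw [h4, HahnSeries.coeff_single_mul]
      rw [HahnSeries.coeff_sub, HahnSeries.coeff_one]
      have : (n : ℤ) - (-1) ≠ 0 := by omega
      rw [if_neg this]
      simp
    rw [h5, le_div_iff₀ h0]
    calc |(((Qr (x + 1)).coeff ((n + 1 : ℕ) : ℤ) : ℤ) : ℝ)| * r ^ n * r
        = |(((Qr (x + 1)).coeff ((n + 1 : ℕ) : ℤ) : ℤ) : ℝ)| * r ^ (n + 1) := by
          rw [pow_succ]
          ring
      _ ≤ C := hC (n + 1)

lemma radius_Qr (x : ℝ) : ENNReal.ofReal ((3 - √5) / 2) ≤ radius (Qr x) := by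
  apply ENNReal.le_of_forall_nnreal_lt
  intro r hr
  have hr' : (r : ℝ) < Rs := by
    have := (ENNReal.lt_ofReal_iff_toReal_lt (by simp)).1 hr
    simpa [Rs] using this
  obtain ⟨r', h1, h2⟩ := exists_between (max_lt hr' Rs_pos)
  have h3 : (r : ℝ) < r' := (le_max_left _ _).trans_lt h1
  have h4 : 0 < r' := (le_max_right _ _).trans_lt h1
  obtain ⟨m, hm⟩ := exists_nat_ge (1 - x)
  obtain ⟨C, hC⟩ := bound_Qr r' h4 h2 m x (by linarith)
  unfold radius
  apply FormalMultilinearSeries.le_radius_of_bound (C := C)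
  intro n
  rw [FormalMultilinearSeries.ofScalars_norm, Complex.norm_intCast]
  calc |(((Qr x).coeff (n : ℤ) : ℤ) : ℝ)| * (r : ℝ) ^ n
      ≤ |(((Qr x).coeff (n : ℤ) : ℤ) : ℝ)| * r' ^ n := by gcongr
    _ ≤ C := hC n

/-- **Answer to Q1: `R(x) ≥ (3 - √5) / 2` for every real number `x`.**
The first two parts say that the definition of the `q`-deformed reals makes sense. The last part:
for `x ≥ 1` the sum of the series lies in the disc `|v - 1| ≤ √|q|` for all `|q| < (3 - √5) / 2`; in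
particular it has no zeros there. -/
theorem result :
    (∀ x : ℝ, 1 ≤ x → ∃! c : ℕ → ℕ, IsNegCF c x) ∧
    (∃! Q : ℝ → LaurentSeries ℤ, IsQDeformation Q) ∧
    ∀ Q : ℝ → LaurentSeries ℤ, IsQDeformation Q →
      (∀ x : ℝ, ENNReal.ofReal ((3 - √5) / 2) ≤ radius (Q x)) ∧
      ∀ x : ℝ, 1 ≤ x → (∀ n : ℤ, n < 0 → (Q x).coeff n = 0) ∧
        ∀ q : ℂ, ‖q‖ < (3 - √5) / 2 →
          Summable (fun n : ℕ => ‖(((Q x).coeff n : ℤ) : ℂ) * q ^ n‖) ∧
          ‖∑' n : ℕ, (((Q x).coeff n : ℤ) : ℂ) * q ^ n - 1‖ ≤ √‖q‖ := by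
  refine ⟨fun x hx => ⟨dg x, isNegCF_dg x hx, fun c hc => hc.unique (isNegCF_dg x hx)⟩,
    ⟨Qr, isQDeformation_Qr, fun Q hQ => hQ.unique isQDeformation_Qr⟩, ?_⟩
  intro Q hQ
  have h1 : Q = Qr := hQ.unique isQDeformation_Qr
  subst h1
  refine ⟨radius_Qr, fun x hx => ⟨fun n hn => ?_, fun q hq => ?_⟩⟩
  · rw [Qr_of_one_le x hx]
    exact ofPS_coeff_neg _ n hn
  · simp only [coeff_Qr_nat x hx]
    exact Lz_value (dg x) (two_le_dg x hx) q hq

end

end Pool.Agent.Results.MP_b13893_an.RadiusBound
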